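import Pool.Agent.H.MP_c03fb1_al.B

namespace Pool.Agent.Results.MP_c03fb1_al.Yes

def IsId (K : Type) [Field K] (A : Type) [NonUnitalNonAssocRing A] [Module K A]
    [IsScalarTower K A A] [SMulCommClass K A A] (f : FreeNonUnitalNonAssocAlgebra K ℕ) : Prop :=
  ∀ ρ : ℕ → A, FreeNonUnitalNonAssocAlgebra.lift K ρ f = 0

def Follows (K : Type) [Field K] (S : Finset (FreeNonUnitalNonAssocAlgebra K ℕ))
    (f : FreeNonUnitalNonAssocAlgebra K ℕ) : Prop :=
  ∀ (A : Type) [NonUnitalNonAssocRing A] [Module K A] [IsScalarTower K A A] [SMulCommClass K A A],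
    (∀ g ∈ S, IsId K A g) → IsId K A f

def FinBased (K : Type) [Field K] (R : Type) [NonUnitalNonAssocRing R] [Module K R]
    [IsScalarTower K R R] [SMulCommClass K R R] : Prop :=
  ∃ S : Finset (FreeNonUnitalNonAssocAlgebra K ℕ), (∀ g ∈ S, IsId K R g) ∧
    ∀ f, IsId K R f → Follows K S f

def Has3 (K : Type) [Field K] : Prop :=
  ∃ (R : Type) (_ : NonUnitalNonAssocRing R) (_ : Module K R) (_ : IsScalarTower K R R)
    (_ : SMulCommClass K R R), Module.finrank K R = 3 ∧ ¬ FinBased K R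

open Pool.Agent.H.MP_c03fb1_al in
theorem aux (K : Type) [Field K] [CharP K 2] [Infinite K] : Has3 K := by
  refine ⟨Alg (bR K K 1), inferInstance, inferInstance, inferInstance, inferInstance, ?_, ?_⟩
  · change Module.finrank K (K × K × K) = 3
    simp
  · rintro ⟨S, hS, h⟩
    obtain ⟨m, k, h1, h2⟩ := main S hS
    exact h2 (h (gg K k) (gg_R k) (Alg (bB K m)) h1)

theorem result : (∃ (K : Type) (_ : Field K), Has3 K) ∧
    ∀ (K : Type) [Field K] [CharP K 2] [Infinite K], Has3 K :=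
  ⟨⟨AlgebraicClosure (ZMod 2), inferInstance, aux _⟩, fun K _ _ _ => aux K⟩

end Pool.Agent.Results.MP_c03fb1_al.Yes
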